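import Mathlib

/-! Rank-3 matroids are spanning-correlated: definitions and the exact statements of the parts. -/

set_option autoImplicit false
open Finset
open scoped Classical

namespace Pool.Agent.W323.SC

noncomputable section

/-- two cells in general position: different rows and different columns -/
def dj {α ι κ : Type} (a : α → ι) (b : α → κ) (p q : α) : Prop := a p ≠ a q ∧ b p ≠ b q

/-- all elements of `S` have the same label -/
def cst {α ι : Type} (a : α → ι) (S : Finset α) : Prop := ∀ p ∈ S, ∀ q ∈ S, a p = a q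

/-- `S` contains two cells in general position -/
def nst {α ι κ : Type} (a : α → ι) (b : α → κ) (S : Finset α) : Prop :=
  ∃ p ∈ S, ∃ q ∈ S, dj a b p q

/-- weight of a set -/
def w {α : Type} (y : α → ℝ) (S : Finset α) : ℝ := ∏ p ∈ S, y p

/-- unordered pairs in general position inside `U` -/
def prs {α ι κ : Type} (a : α → ι) (b : α → κ) (U : Finset α) : Finset (Finset α) :=
  (U.powersetCard 2).filter (fun q => nst a b q)

def n1 {α ι κ : Type} (a : α → ι) (b : α → κ) (U : Finset α) : ℕ :=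
  (U.filter (fun p => nst a b (U.erase p))).card

def spl {α ι κ : Type} (a : α → ι) (b : α → κ) (U : Finset α) : ℕ :=
  (U.powerset.filter (fun R => cst a R ∧ cst b (U \ R) ∧ 2 ≤ R.card ∧ 2 ≤ (U \ R).card)).card

def gp {α ι κ : Type} (a : α → ι) (b : α → κ) (S : Finset α) (p : α) : ℕ :=
  (S.filter (fun u => dj a b p u)).card

def cr {α ι κ : Type} (a : α → ι) (b : α → κ) (S : Finset α) (p : α) : ℕ :=
  if (∀ u ∈ S, a u = a p ∨ b u = b p) ∧ (∃ u ∈ S, u ≠ p ∧ a u = a p) ∧ (∃ u ∈ S, u ≠ p ∧ b u = b p)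
  then 1 else 0

/-- `U` = the four cells of a 2 x 2 minor plus one more cell in one of its lines. -/
def cp {α ι κ : Type} (a : α → ι) (b : α → κ) (U : Finset α) : Prop :=
  ∃ p ∈ U, ∃ p' ∈ U, ∃ s ∈ U, ∃ s' ∈ U, ∃ u ∈ U, U = {p, p', s, s', u} ∧
    dj a b p p' ∧ a s = a p ∧ b s = b p' ∧ a s' = a p' ∧ b s' = b p ∧
    u ≠ p ∧ u ≠ p' ∧ u ≠ s ∧ u ≠ s'

/-- injectivity of the pair of labels -/
def Inj {α ι κ : Type} (a : α → ι) (b : α → κ) : Prop := ∀ p q, a p = a q → b p = b q → p = q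

/-! ### degree four -/

/-- the kernel of `12 * (F4 - S)` as a four-fold sum; `x i` = row label, `c i` = column label -/
def ker4 (x c : Fin 4 → Fin 4) (i j k l : Fin 4) : ℤ :=
  (if x i ≠ x j ∧ c k ≠ c l then 3 else 0)
  - (if ¬ (x j = x k ∧ c j = c k) ∧ ¬ (x j = x l ∧ c j = c l) ∧ ¬ (x k = x l ∧ c k = c l) ∧
        ¬ (x j = x k ∧ x k = x l) ∧ ¬ (c j = c k ∧ c k = c l) then 2 else 0)
  - (if x k = x l ∧ c k = c l then 3 else 0)
  + (if x k = x j ∧ c l = c j then 6 else 0)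
  - (if x i = x j ∧ c k = c l then 3 else 0)

/-- SC-K4: the symmetrised kernel is nonnegative (finite check). -/
def S_K4 : Prop := ∀ x c : Fin 4 → Fin 4,
  0 ≤ ∑ g : Equiv.Perm (Fin 4), ker4 x c (g 0) (g 1) (g 2) (g 3)

/-- SC-F4: the degree four inequality. -/
def S_F4 : Prop := ∀ (α ι κ : Type) [Fintype α] (a : α → ι) (b : α → κ), Inj a b →
  ∀ y : α → ℝ, (∀ p, 0 ≤ y p) →
  (∑ p, y p) * (∑ S ∈ ((univ : Finset α).powersetCard 3).filter (fun S => nst a b S), w y S) ≤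
    (∑ S ∈ ((univ : Finset α).powersetCard 2).filter (fun S => cst a S), w y S) *
      (∑ S ∈ ((univ : Finset α).powersetCard 2).filter (fun S => cst b S), w y S) +
    (∑ q ∈ prs a b univ, w y q) * (∑ S ∈ (univ : Finset α).powersetCard 2, w y S)

/-! ### higher degrees -/

/-- SC-A -/
def S_A : Prop := ∀ (α ι κ : Type) [Fintype α] (a : α → ι) (b : α → κ), Inj a b →
  ∀ y : α → ℝ, (∀ p, 0 ≤ y p) →
  (∑ p, y p) * (∑ S ∈ (univ : Finset (Finset α)).filter (fun S => 4 ≤ S.card ∧ nst a b S), w y S) =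
    (∑ U ∈ (univ : Finset (Finset α)).filter (fun U => 5 ≤ U.card), (n1 a b U : ℝ) * w y U) +
    ∑ S ∈ (univ : Finset (Finset α)).filter (fun S => 4 ≤ S.card ∧ nst a b S), w y S * ∑ p ∈ S, y p

/-- SC-B -/
def S_B : Prop := ∀ (α ι κ : Type) [Fintype α] (a : α → ι) (b : α → κ), Inj a b →
  ∀ y : α → ℝ, (∀ p, 0 ≤ y p) →
  (∑ q ∈ prs a b univ, w y q) * (∑ S ∈ (univ : Finset (Finset α)).filter (fun S => 3 ≤ S.card), w y S) =
    (∑ U ∈ (univ : Finset (Finset α)).filter (fun U => 5 ≤ U.card), ((prs a b U).card : ℝ) * w y U) +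
    (∑ S ∈ (univ : Finset (Finset α)).filter (fun S => 4 ≤ S.card),
      w y S * ∑ p ∈ S, y p * (gp a b S p : ℝ)) +
    (∑ W ∈ (univ : Finset (Finset α)).filter (fun W => 3 ≤ W.card), w y W * ∑ q ∈ prs a b W, w y q)

/-- SC-C -/
def S_C : Prop := ∀ (α ι κ : Type) [Fintype α] (a : α → ι) (b : α → κ), Inj a b →
  ∀ y : α → ℝ, (∀ p, 0 ≤ y p) →
    (∑ U ∈ (univ : Finset (Finset α)).filter (fun U => 5 ≤ U.card), (spl a b U : ℝ) * w y U) +
    (∑ S ∈ (univ : Finset (Finset α)).filter (fun S => 4 ≤ S.card),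
      w y S * ∑ p ∈ S, y p * (cr a b S p : ℝ)) ≤
    ∑ R ∈ (univ : Finset (Finset α)).filter (fun R => 2 ≤ R.card ∧ cst a R),
      ∑ C ∈ (univ : Finset (Finset α)).filter (fun C => 2 ≤ C.card ∧ cst b C ∧ 5 ≤ R.card + C.card),
        w y R * w y C

/-- SC-P1 -/
def S_P1 : Prop := ∀ (α ι κ : Type) [Fintype α] (a : α → ι) (b : α → κ), Inj a b →
  ∀ (S : Finset α) (p : α), nst a b S → p ∈ S → 1 ≤ gp a b S p + cr a b S p

/-- SC-P2 -/
def S_P2 : Prop := ∀ (α ι κ : Type) [Fintype α] (a : α → ι) (b : α → κ), Inj a b →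
  ∀ U : Finset α, 6 ≤ U.card → n1 a b U ≤ (prs a b U).card + spl a b U

/-- SC-P3 -/
def S_P3 : Prop := ∀ (α ι κ : Type) [Fintype α] (a : α → ι) (b : α → κ), Inj a b →
  ∀ U : Finset α, U.card = 5 → n1 a b U ≤ (prs a b U).card + spl a b U + (if cp a b U then 1 else 0)

/-- SC-P4 -/
def S_P4 : Prop := ∀ (α ι κ : Type) [Fintype α] (a : α → ι) (b : α → κ), Inj a b →
  ∀ y : α → ℝ, (∀ p, 0 ≤ y p) →
  ∑ U ∈ ((univ : Finset α).powersetCard 5).filter (fun U => cp a b U), w y U ≤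
    ∑ W ∈ (univ : Finset α).powersetCard 3, w y W * ∑ q ∈ prs a b W, w y q

/-- SC-SUB: the inequality in subset form -/
def S_Sub : Prop := ∀ (α ι κ : Type) [Fintype α] (a : α → ι) (b : α → κ), Inj a b →
  ∀ y : α → ℝ, (∀ p, 0 ≤ y p) →
  (∑ p, y p) * (∑ S ∈ (univ : Finset (Finset α)).filter (fun S => nst a b S), w y S) ≤
    (∑ S ∈ (univ : Finset (Finset α)).filter (fun S => 2 ≤ S.card ∧ cst a S), w y S) *
      (∑ S ∈ (univ : Finset (Finset α)).filter (fun S => 2 ≤ S.card ∧ cst b S), w y S) +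
    (∑ q ∈ prs a b univ, w y q) * (∑ S ∈ (univ : Finset (Finset α)).filter (fun S => 1 ≤ S.card), w y S)

/-- SC-PROD: matrix form -/
def S_Mat : Prop := ∀ (ι κ : Type) [Fintype ι] [Fintype κ] (y : ι → κ → ℝ), (∀ i j, 0 ≤ y i j) →
  ((∑ i, ∑ j, y i j) - (∑ i, ∑ j, ∑ i', ∑ j', if i ≠ i' ∧ j ≠ j' then y i j * y i' j' else 0) / 2) *
      ((∏ i, ∏ j, (1 + y i j)) - 1) ≤
    (∑ i, ((∏ j, (1 + y i j)) - 1)) * (∑ j, ((∏ i, (1 + y i j)) - 1))

/-! ### set families -/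

/-- the effective weight of a cell -/
def yc {α ι κ : Type} [Fintype α] (T : Finset α) (A : α → ι) (B : α → κ) (z : α → ℝ) (i : ι) (j : κ) : ℝ :=
  (∏ p ∈ T.filter (fun p => A p = i ∧ B p = j), (1 + z p)) - 1

/-- sum of the weights of nonempty subsets of `T` with constant `A`-label -/
def XS {α ι : Type} [Fintype α] [Fintype ι] (T : Finset α) (A : α → ι) (z : α → ℝ) : ℝ :=
  ∑ i, ((∏ p ∈ T.filter (fun p => A p = i), (1 + z p)) - 1)

def SS {α ι κ : Type} [Fintype α] [Fintype ι] [Fintype κ] (T : Finset α) (A : α → ι) (B : α → κ)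
    (z : α → ℝ) : ℝ := ∑ i, ∑ j, yc T A B z i j

def QS {α ι κ : Type} [Fintype α] [Fintype ι] [Fintype κ] (T : Finset α) (A : α → ι) (B : α → κ)
    (z : α → ℝ) : ℝ :=
  (∑ i, ∑ j, ∑ i', ∑ j', if i ≠ i' ∧ j ≠ j' then yc T A B z i j * yc T A B z i' j' else 0) / 2

/-- SC-MUL -/
def S_Mul : Prop := ∀ (α ι κ : Type) [Fintype α] [Fintype ι] [Fintype κ] (T : Finset α)
  (A : α → ι) (B : α → κ) (z : α → ℝ), (∀ p, 0 ≤ z p) →
  (SS T A B z - QS T A B z) * ((∏ p ∈ T, (1 + z p)) - 1) ≤ XS T A z * XS T B z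

/-- SC-ROW: all subsets `X` of `L ∪ T` with `X ⊆ L`, or `X ∩ T` (nonempty) of constant label and
`X ∩ L ⊆ P`. -/
def S_Row : Prop := ∀ (α ι : Type) [Fintype α] [Fintype ι] (L T P : Finset α), Disjoint L T → P ⊆ L →
  ∀ (A : α → ι) (z : α → ℝ),
  ∑ X ∈ (L ∪ T).powerset.filter (fun X => X ⊆ L ∨ (cst A (X ∩ T) ∧ X ∩ L ⊆ P)), w z X =
    (∏ p ∈ L, (1 + z p)) + (∏ p ∈ P, (1 + z p)) * XS T A z

/-- SC-LOW: lower bound for the sum over a family `ns` containing the five types. -/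
def S_Low : Prop := ∀ (α ι κ : Type) [Fintype α] [Fintype ι] [Fintype κ]
  (L T P P' K : Finset α), Disjoint L T → P ⊆ L → P' ⊆ L → P ∩ P' = K →
  ∀ (A : α → ι) (B : α → κ) (z : α → ℝ), (∀ p, 0 ≤ z p) → ∀ ns : Finset α → Prop,
  (∀ X, X ⊆ L → ns X) →
  (∀ X, X ⊆ L ∪ T → cst A (X ∩ T) → X ∩ L ⊆ P → ns X) →
  (∀ X, X ⊆ L ∪ T → cst B (X ∩ T) → X ∩ L ⊆ P' → ns X) →
  (∀ X, X ⊆ L ∪ T → X ∩ L ⊆ K → ∀ p ∈ X ∩ T, ∀ q ∈ X ∩ T,
    (∀ u ∈ X ∩ T, (A u = A p ∧ B u = B p) ∨ (A u = A q ∧ B u = B q)) → ns X) →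
  (∀ X, X ⊆ L ∪ T → ∀ g ∈ L, X ∩ L ⊆ insert g K → cst A (X ∩ T) → cst B (X ∩ T) → ns X) →
  (∏ p ∈ L, (1 + z p)) + (∏ p ∈ P, (1 + z p)) * XS T A z + (∏ p ∈ P', (1 + z p)) * XS T B z +
    (∏ p ∈ K, (1 + z p)) * (QS T A B z - SS T A B z + SS T A B z * ∑ g ∈ L \ (P ∪ P'), z g) ≤
  ∑ X ∈ (L ∪ T).powerset.filter (fun X => ns X), w z X

/-- SC-FIN: the final real inequality. `l, x, x', k, v` = products over `L, P, P', K, T`. -/
def S_Fin : Prop := ∀ l x x' k v g s q X Y d : ℝ,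
  1 ≤ k → 1 ≤ x → 1 ≤ x' → 1 ≤ v → 0 ≤ g → 0 ≤ s → 0 ≤ q → 0 ≤ X → 0 ≤ Y →
  l * k ≤ x * x' * Real.exp g → x * x' ≤ l * k →
  (s - q) * (v - 1) ≤ X * Y →
  l + x * X + x' * Y + k * (q - s + s * g) ≤ d →
  (l * v - l) * (l * v - d) ≤ (l * v - (l + x * X)) * (l * v - (l + x' * Y))

/-! ### matroids -/

/-- closure as a finset -/
def clF {n : ℕ} (M : Matroid (Fin n)) (S : Set (Fin n)) : Finset (Fin n) :=
  univ.filter (fun x => x ∈ M.closure S)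

/-- label of `p`: the flat spanned by `e` and `p` -/
def lab {n : ℕ} (M : Matroid (Fin n)) (e p : Fin n) : Finset (Fin n) := clF M {e, p}

def LL {n : ℕ} (M : Matroid (Fin n)) (e f : Fin n) : Finset (Fin n) := clF M {e, f} \ {e, f}
def TT {n : ℕ} (M : Matroid (Fin n)) (e f : Fin n) : Finset (Fin n) := univ \ clF M {e, f}
def PP {n : ℕ} (M : Matroid (Fin n)) (e : Fin n) : Finset (Fin n) := clF M {e} \ {e}

/-- SC-M0 -/
def S_M0 : Prop := ∀ (n : ℕ) (M : Matroid (Fin n)), M.E = Set.univ → ∀ e f : Fin n, e ≠ f →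
  M.Indep {e, f} → LL M e f ∪ TT M e f = univ \ {e, f} ∧ Disjoint (LL M e f) (TT M e f) ∧
    PP M e ⊆ LL M e f ∧ PP M f ⊆ LL M e f ∧ PP M e ∩ PP M f = clF M ∅ ∧ LL M e f = LL M f e ∧
    TT M e f = TT M f e

/-- SC-M1 -/
def S_M1 : Prop := ∀ (n : ℕ) (M : Matroid (Fin n)), M.E = Set.univ → M.eRank = 3 →
  ∀ e f : Fin n, e ≠ f → M.Indep {e, f} → ∀ X : Finset (Fin n), X ⊆ LL M e f ∪ TT M e f →
  (¬ M.Spanning ((insert e (insert f X) : Finset (Fin n)) : Set (Fin n)) ↔ X ⊆ LL M e f) ∧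
  (¬ M.Spanning ((insert e X : Finset (Fin n)) : Set (Fin n)) ↔
    X ⊆ LL M e f ∨ (cst (lab M e) (X ∩ TT M e f) ∧ X ∩ LL M e f ⊆ PP M e))

/-- SC-M2 -/
def S_M2 : Prop := ∀ (n : ℕ) (M : Matroid (Fin n)), M.E = Set.univ → M.eRank = 3 →
  ∀ e f : Fin n, e ≠ f → M.Indep {e, f} → ∀ X : Finset (Fin n), X ⊆ LL M e f ∪ TT M e f →
  (X ⊆ LL M e f → ¬ M.Spanning (X : Set (Fin n))) ∧
  (cst (lab M e) (X ∩ TT M e f) → X ∩ LL M e f ⊆ PP M e → ¬ M.Spanning (X : Set (Fin n))) ∧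
  (X ∩ LL M e f ⊆ clF M ∅ → ∀ p ∈ X ∩ TT M e f, ∀ q ∈ X ∩ TT M e f,
    (∀ u ∈ X ∩ TT M e f, (lab M e u = lab M e p ∧ lab M f u = lab M f p) ∨
      (lab M e u = lab M e q ∧ lab M f u = lab M f q)) → ¬ M.Spanning (X : Set (Fin n))) ∧
  (∀ g ∈ LL M e f, X ∩ LL M e f ⊆ insert g (clF M ∅) → cst (lab M e) (X ∩ TT M e f) →
    cst (lab M f) (X ∩ TT M e f) → ¬ M.Spanning (X : Set (Fin n)))

def AA {n : ℕ} (M : Matroid (Fin n)) (z : Fin n → ℝ) (e f : Fin n) : ℝ :=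
  ∑ X ∈ (univ \ {e, f} : Finset (Fin n)).powerset.filter
    (fun X : Finset (Fin n) => M.Spanning ((insert e (insert f X) : Finset (Fin n)) : Set (Fin n))), w z X
def BB {n : ℕ} (M : Matroid (Fin n)) (z : Fin n → ℝ) (e f : Fin n) : ℝ :=
  ∑ X ∈ (univ \ {e, f} : Finset (Fin n)).powerset.filter
    (fun X : Finset (Fin n) => M.Spanning ((insert e X : Finset (Fin n)) : Set (Fin n))), w z X
def DD {n : ℕ} (M : Matroid (Fin n)) (z : Fin n → ℝ) (e f : Fin n) : ℝ :=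
  ∑ X ∈ (univ \ {e, f} : Finset (Fin n)).powerset.filter
    (fun X : Finset (Fin n) => M.Spanning (X : Set (Fin n))), w z X

/-- SC-MI -/
def S_MI : Prop := ∀ (n : ℕ) (M : Matroid (Fin n)), M.E = Set.univ → M.eRank = 3 →
  ∀ e f : Fin n, e ≠ f → M.Indep {e, f} → ∀ z : Fin n → ℝ, (∀ x, 0 < z x) →
  AA M z e f * DD M z e f ≤ BB M z e f * BB M z f e

/-- SC-MD -/
def S_MD : Prop := ∀ (n : ℕ) (M : Matroid (Fin n)), M.E = Set.univ →
  ∀ e f : Fin n, e ≠ f → ¬ M.Indep {e, f} → ∀ z : Fin n → ℝ, (∀ x, 0 < z x) →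
  AA M z e f * DD M z e f ≤ BB M z e f * BB M z f e

/-- SC-RED: the statement for the sums of the problem file. -/
def S_Red : Prop := ∀ (n : ℕ) (M : Matroid (Fin n)) (e f : Fin n), e ≠ f → ∀ z : Fin n → ℝ,
  (∀ x, 0 < z x) → AA M z e f * DD M z e f ≤ BB M z e f * BB M z f e →
  (∑ A : Finset (Fin n), if M.Spanning (A : Set (Fin n)) ∧ e ∈ A ∧ f ∈ A then ∏ a ∈ A, z a else 0) *
    (∑ A : Finset (Fin n), if M.Spanning (A : Set (Fin n)) then ∏ a ∈ A, z a else 0) ≤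
  (∑ A : Finset (Fin n), if M.Spanning (A : Set (Fin n)) ∧ e ∈ A then ∏ a ∈ A, z a else 0) *
    (∑ A : Finset (Fin n), if M.Spanning (A : Set (Fin n)) ∧ f ∈ A then ∏ a ∈ A, z a else 0)

end
end Pool.Agent.W323.SC
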